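import Pool.Agent.Helper65.LK.Final
import Pool.Agent.Helper65.LK.Statement

/-!
# Lamm's conjecture on the equivariant crossing numbers of two-bridge knots

For every two-bridge knot `K` the least number of crossings of a symmetric diagram of `K` is equal to
the crossing number of `K` if and only if `K` or its mirror image has an expansion `[b₁, ..., bₙ]` of
type (A) or of type (B).

Link diagrams, Reidemeister moves, symmetric diagrams and the crossing numbers are defined in
`Pool/Agent/Helper65/LK/Defs.lean`, `Skein.lean` (isomorphisms, the third move) and `Dia.lean`, the Conway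
normal form diagrams in `Tangle.lean`, `Word.lean` and `Statement.lean`.
-/

namespace Pool.Agent.Results.MP_c1f9bc_gt.LammConjecture

open Pool.Agent.Helper65.LK Pool.Agent.Helper75.Lamm

/-- The link represented by `K`, or its mirror image, has the Conway normal form diagram
`C(a₁, ..., aₙ)`. -/
def RepresentedBy (K : Dia) (a : List ℕ) : Prop :=
  Same K (conwayDia a) ∨ Same K (mirrorDia (conwayDia a))

/-- `K` is a diagram of a two-bridge knot: a knot which is represented by an expansion
`[a₁, ..., aₙ]` with positive entries. -/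
def TwoBridge (K : Dia) : Prop :=
  K.IsKnot ∧ ∃ a : List ℕ, a ≠ [] ∧ (∀ x ∈ a, 0 < x) ∧ RepresentedBy K a

theorem result (K : Dia) (hK : TwoBridge K) :
    symCrossingNumber K = crossingNumber K ↔
      ∃ b : List ℕ, b ≠ [] ∧ (∀ x ∈ b, 0 < x) ∧ (TypeA b ∨ TypeB b) ∧ RepresentedBy K b := by
  obtain ⟨hk, a, ha, hpa, hr⟩ := hK
  have hs : SameM K (conway a) := hr
  rw [symCrossingNumber_same hs, crossingNumber_same hs, lamm a ha hpa (hs.isKnot hk)]
  constructor
  · rintro ⟨b, hb, hpb, ht, h⟩
    exact ⟨b, hb, hpb, ht, hs.trans h⟩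
  · rintro ⟨b, hb, hpb, ht, h⟩
    have h' : SameM K (conway b) := h
    exact ⟨b, hb, hpb, ht, hs.symm.trans h'⟩

end Pool.Agent.Results.MP_c1f9bc_gt.LammConjecture
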